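import Mathlib
import Pool.Graph.R_seed8.R439.QLoc
import Pool.Graph.R_seed8.R439.QH

set_option autoImplicit false

/-!
# MP_4d1f21_nt: the congruence modulo `Φ_n(q)²` with arbitrary numerator parameters

`a_1, …, a_d` are arbitrary positive integers, `n` is in any residue class prime to `m`, and there
is an extra factor `q^(l m k)`.  The condition is that the nonnegative integers `r_i` with
`a_i + r_i n ≡ 0 (mod m)` can be chosen with sum `m`, and that `∑ a_i + l m < (d - 1) m`.
-/

namespace Pool.Agent.Results.MP_4d1f21_nt.ArbitraryParameters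

open Finset Polynomial Pool.Agent.R439

theorem hb {m : ℕ} (hm : 0 < m) : ∀ i : ℕ, 0 < i → (q ^ m) ^ i ≠ 1 := by
  intro i hi
  rw [← pow_mul]
  exact q_pow_ne_one (Nat.mul_pos hm hi).ne'

/-- the parametrized term -/
noncomputable def t {d : ℕ} (a : Fin d → ℕ) (n m l : ℕ) (k : ℕ) (s : Fin d → ℤ) : K :=
  (∏ i, poch (q ^ ((a i : ℤ) + (n : ℤ) * s i)) (q ^ m) k) *
    ((poch (q ^ m) (q ^ m) k)⁻¹ ^ d * q ^ ((l + 1) * m * k))

theorem aff_t {n : ℕ} [NeZero n] {d : ℕ} (a : Fin d → ℕ) (m l k : ℕ) (hk : k < n)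
    (hnm : Nat.Coprime n m) : Aff n (t a n m l k) := by
  refine Aff.mul (Aff.prod fun i _ => ?_) (Aff.const ?_)
  · unfold poch
    refine Aff.prod fun j _ => ?_
    refine (Aff.const (one_mem _)).sub (Aff.mul ?_ (Aff.const (pow_mem (pow_mem' _) _)))
    exact Aff.qpow _ (Pi.evalAddMonoidHom (fun _ : Fin d => ℤ) i)
  · refine mul_mem (pow_mem ?_ _) (pow_mem' _)
    rw [poch, ← Finset.prod_inv_distrib]
    refine prod_mem fun j hj => ?_
    rw [← pow_succ', ← pow_mul]
    apply inv_one_sub_mem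
    intro h
    have h2 : n ∣ j + 1 := hnm.dvd_of_dvd_mul_left h
    have := Nat.le_of_dvd (Nat.succ_pos _) h2
    have := mem_range.1 hj
    omega

/-- the special vectors -/
def vs {d : ℕ} (r : Fin d → ℕ) (m : ℕ) (j : Fin d) : Fin d → ℤ :=
  (fun i => (r i : ℤ)) - (m : ℤ) • Pi.single j (1 : ℤ)

/-- exact vanishing at the special exponents -/
theorem special {d n m l : ℕ} (a r e : Fin d → ℕ) (ha : ∀ i, 0 < a i)
    (he : ∀ i, a i + r i * n = m * e i) (hr : ∑ i, r i = m)
    (hA : ∑ i, a i + l * m < (d - 1) * m) (j : Fin d) :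
    ∑ k ∈ range n, t a n m l k (vs r m j) = 0 := by
  have hd1 : 1 ≤ d := Nat.succ_le_of_lt (lt_of_le_of_lt (Nat.zero_le _) j.isLt)
  have hmpos : 0 < m := by
    rcases Nat.eq_zero_or_pos m with h | h
    · subst h; simp at hA
    · exact h
  have hepos : ∀ i, 0 < e i := by
    intro i
    rcases Nat.eq_zero_or_pos (e i) with h | h
    · have := he i
      rw [h, mul_zero] at this
      have := ha i
      omega
    · exact h
  -- the sum of the `e i`
  have hE : m * ∑ i, e i = ∑ i, a i + m * n := by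
    rw [mul_sum, ← sum_congr rfl fun i _ => he i, sum_add_distrib, ← sum_mul, hr]
  have hEn : n ≤ ∑ i, e i := by
    by_contra h
    rw [not_le] at h
    have := Nat.mul_lt_mul_of_pos_left h hmpos
    omega
  obtain ⟨D, hD⟩ := Nat.exists_eq_add_of_le hEn
  have hDA : m * D = ∑ i, a i := by
    rw [hD, mul_add] at hE
    omega
  have hDl : D + l < d - 1 := by
    rw [← hDA] at hA
    have : (D + l) * m < (d - 1) * m := by
      have e1 : (D + l) * m = m * D + l * m := by ring
      rw [e1]; exact hA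
    exact Nat.lt_of_mul_lt_mul_right this
  have hsplit : ∑ i ∈ univ.erase j, e i + e j = n + D := by
    rw [← hD]; exact sum_erase_add _ _ (mem_univ j)
  have hsub : ∑ i ∈ univ.erase j, (e i - 1) + (d - 1) = ∑ i ∈ univ.erase j, e i := by
    have : (d - 1) = ∑ i ∈ (univ : Finset (Fin d)).erase j, 1 := by
      rw [sum_const, card_erase_of_mem (mem_univ j), card_univ, Fintype.card_fin]; simp
    rw [this, ← sum_add_distrib]
    refine sum_congr rfl fun i _ => ?_
    have := hepos i
    omega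
  obtain ⟨N, hN⟩ : ∃ N : ℕ, n = e j + N := ⟨n - e j, by omega⟩
  have hNn : N < n := by
    have := hepos j
    omega
  set B : K := q ^ m with hB
  have hB0 : B ≠ 0 := pow_ne_zero _ q_ne
  have hB1 := hb hmpos
  set R : K[X] := X ^ l * ∏ i ∈ univ.erase j, Rp B (e i) with hR
  have hdeg : R.natDegree < N := by
    have h1 : R.natDegree ≤ l + ∑ i ∈ univ.erase j, (e i - 1) := by
      refine (natDegree_mul_le).trans (add_le_add ?_ ?_)
      · exact natDegree_X_pow_le l
      · exact (natDegree_prod_le _ _).trans (sum_le_sum fun i _ => Rp_deg _ _)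
    omega
  have hterm : ∀ k, t a n m l k (vs r m j) = tc B N k * (B ^ k * R.eval (B ^ k)) := by
    intro k
    have hk0 : poch B B k ≠ 0 := poch_self_ne hB1 k
    have hexp : ∀ i ∈ univ.erase j,
        poch (q ^ ((a i : ℤ) + (n : ℤ) * vs r m j i)) B k = poch (B ^ e i) B k := by
      intro i hi
      rw [mem_erase] at hi
      congr 1
      have h1 : vs r m j i = (r i : ℤ) := by
        rw [vs, Pi.sub_apply, Pi.smul_apply, Pi.single_eq_of_ne hi.1, smul_zero, sub_zero]
      rw [h1, hB, ← pow_mul, ← zpow_natCast]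
      congr 1
      have h2 : ((a i : ℤ) + r i * n) = (m : ℤ) * e i := by exact_mod_cast he i
      push_cast
      linear_combination h2
    have hexp0 : q ^ ((a j : ℤ) + (n : ℤ) * vs r m j j) = B ^ (-(N : ℤ)) := by
      have h1 : vs r m j j = (r j : ℤ) - m := by
        rw [vs, Pi.sub_apply, Pi.smul_apply, Pi.single_eq_same, smul_eq_mul, mul_one]
      rw [h1, hB, ← zpow_natCast, ← zpow_mul]
      congr 1
      have h2 : ((a j : ℤ) + r j * n) = (m : ℤ) * e j := by exact_mod_cast he j
      have h3 : (n : ℤ) = e j + N := by exact_mod_cast hN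
      linear_combination h2 - (m : ℤ) * h3
    unfold t
    rw [← mul_prod_erase univ _ (mem_univ j), hexp0, prod_congr rfl hexp, ← hB]
    have hcount : (poch B B k)⁻¹ ^ d = (poch B B k)⁻¹ *
        ∏ i ∈ (univ : Finset (Fin d)).erase j, (poch B B k)⁻¹ := by
      rw [prod_const, card_erase_of_mem (mem_univ j), card_univ, Fintype.card_fin, ← pow_succ']
      congr 1; omega
    have hRe : R.eval (B ^ k) = (B ^ k) ^ l * ∏ i ∈ univ.erase j,
        (poch (B ^ e i) B k * (poch B B k)⁻¹) := by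
      rw [hR, eval_mul, eval_pow, eval_X, eval_prod]
      congr 1
      refine prod_congr rfl fun i _ => ?_
      rw [← Rp_eval hB1 (hepos i), div_eq_mul_inv]
    have hq : q ^ ((l + 1) * m * k) = B ^ k * (B ^ k) ^ l := by
      rw [hB, ← pow_mul, ← pow_mul, ← pow_add]; congr 1; ring
    rw [hRe, prod_mul_distrib, hcount, tc, div_eq_mul_inv, hq]
    ring
  rw [sum_congr rfl fun k _ => hterm k]
  exact tc_poly_zero hB0 hB1 hNn R hdeg

/-- the general congruence -/
theorem main {d : ℕ} (m n l : ℕ) (a r : Fin d → ℕ) (hn : 1 < n) (hcop : Nat.Coprime n m)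
    (ha : ∀ i, 0 < a i) (har : ∀ i, m ∣ a i + r i * n) (hr : ∑ i, r i = m)
    (hA : ∑ i, a i + l * m < (d - 1) * m) :
    Cong (cyclotomic n ℚ ^ 2)
      (∑ k ∈ range n, (∏ i, poch (q ^ a i) (q ^ m) k) / (poch (q ^ m) (q ^ m) k) ^ d *
        q ^ ((l + 1) * m * k)) 0 := by
  have : NeZero n := ⟨by omega⟩
  choose e he using har
  have hm0' : m ≠ 0 := by rintro rfl; simp at hA
  rw [Cong, sub_zero]
  apply num_of_I
  set F : (Fin d → ℤ) → K := fun s => ∑ k ∈ range n, t a n m l k s with hF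
  have hAff : Aff n F := Aff.sum fun k hk => aff_t a m l k (mem_range.1 hk) hcop
  obtain ⟨L, hL, hF0, H⟩ := hAff.lin
  have hgoal : (∑ k ∈ range n, (∏ i, poch (q ^ a i) (q ^ m) k) /
        (poch (q ^ m) (q ^ m) k) ^ d * q ^ ((l + 1) * m * k)) = F 0 := by
    rw [hF]
    refine sum_congr rfl fun k _ => ?_
    unfold t
    have h1 : ∀ i ∈ (univ : Finset (Fin d)),
        poch (q ^ ((a i : ℤ) + (n : ℤ) * (0 : Fin d → ℤ) i)) (q ^ m) k =
        poch (q ^ a i) (q ^ m) k := by
      intro i _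
      rw [Pi.zero_apply, mul_zero, add_zero, zpow_natCast]
    rw [prod_congr rfl h1, inv_pow]
    ring
  rw [hgoal]
  have hs : ∀ j ∈ (univ : Finset (Fin d)), I n 2 (((r j : K)) *
      (F 0 + w n * (L (fun i => (r i : ℤ)) - (m : K) * L (Pi.single j 1)))) := by
    intro j _
    have h1 := H (vs r m j)
    have h2 : F (vs r m j) = 0 := special a r e ha he hr hA j
    rw [h2, zero_sub] at h1
    have h3 : L (vs r m j) = L (fun i => (r i : ℤ)) - (m : K) * L (Pi.single j 1) := by
      rw [vs, map_sub, map_zsmul, zsmul_eq_mul]; push_cast; rfl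
    rw [h3] at h1
    have := h1.neg
    rw [neg_neg] at this
    exact this.mulL (natCast_mem _ _)
  have h4 := I.sum hs
  have hsumd : ∑ i, (r i : K) = (m : K) := by
    rw [← Nat.cast_sum, hr]
  have hLv : L (fun i => (r i : ℤ)) = ∑ i, (r i : K) * L (Pi.single i 1) := by
    have hv : (fun i => (r i : ℤ)) = ∑ i, (r i : ℤ) • Pi.single (M := fun _ : Fin d => ℤ) i (1 : ℤ) := by
      funext x
      rw [Finset.sum_apply, sum_eq_single x]
      · simp
      · intro j _ hj
        simp [Pi.single_eq_of_ne hj.symm]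
      · intro h; exact absurd (mem_univ x) h
    rw [hv, map_sum]
    refine sum_congr rfl fun i _ => ?_
    rw [map_zsmul, zsmul_eq_mul]; push_cast; rfl
  have h5 : ∑ j, ((r j : K)) *
      (F 0 + w n * (L (fun i => (r i : ℤ)) - (m : K) * L (Pi.single j 1))) = (m : K) * F 0 := by
    have : ∀ j ∈ (univ : Finset (Fin d)), ((r j : K)) *
      (F 0 + w n * (L (fun i => (r i : ℤ)) - (m : K) * L (Pi.single j 1))) =
      (r j : K) * (F 0 + w n * L (fun i => (r i : ℤ))) -
        (w n * (m : K)) * ((r j : K) * L (Pi.single j 1)) := by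
      intro j _; ring
    rw [sum_congr rfl this, sum_sub_distrib, ← sum_mul, ← mul_sum, hsumd, ← hLv]
    ring
  rw [h5] at h4
  have hm0 : (m : K) ≠ 0 := by exact_mod_cast hm0'
  exact I.cancel hm0 (natinv_mem m) h4

/-- **Arbitrary numerator parameters, all residue classes of `n`, and an extra power of `q^(m k)`.**
`Cong P x 0` says that the polynomial `P` divides the numerator of `x ∈ ℚ(q)` (in lowest terms), and
`poch a b k = (a; b)_k`.

(1) Let `a_1, …, a_d` be positive integers, `m ≥ 1`, `n > 1` prime to `m`, `l ≥ 0`, and suppose that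
there are integers `r_i ≥ 0` with `m ∣ a_i + r_i n` and `∑ r_i = m`, and that
`∑ a_i + l m < (d - 1) m`.  Then `Φ_n(q)²` divides
`∑_{k<n} (q^{a_1}, …, q^{a_d}; q^m)_k / (q^m; q^m)_k^d q^{(l+1) m k}`.

(2) In particular this holds for all positive integers `a_1, …, a_d`, `d ≥ 3`, with sum `m`, all
`n ≡ -1 (mod m)`, `n > 1`, and all `l ≤ d - 3` (Q1 is the case `a_i = i`, `l = 0`).

(3) An example with other residue classes: `(q, q², q⁴; q⁷)_k`, for all `n` which are `3`, `5` or `6`
modulo `7` (the quadratic nonresidues). -/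
theorem result :
    (∀ (d m n l : ℕ) (a r : Fin d → ℕ), 1 < n → Nat.Coprime n m → (∀ i, 0 < a i) →
      (∀ i, m ∣ a i + r i * n) → ∑ i, r i = m → ∑ i, a i + l * m < (d - 1) * m →
      Cong (cyclotomic n ℚ ^ 2)
        (∑ k ∈ range n, (∏ i, poch (q ^ a i) (q ^ m) k) / (poch (q ^ m) (q ^ m) k) ^ d *
          q ^ ((l + 1) * m * k)) 0) ∧
    (∀ (d m n l : ℕ) (a : Fin d → ℕ), (∀ i, 0 < a i) → ∑ i, a i = m → l + 3 ≤ d → 1 < n →
      m ∣ n + 1 →
      Cong (cyclotomic n ℚ ^ 2)
        (∑ k ∈ range n, (∏ i, poch (q ^ a i) (q ^ m) k) / (poch (q ^ m) (q ^ m) k) ^ d *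
          q ^ ((l + 1) * m * k)) 0) ∧
    ∀ n : ℕ, n % 7 = 3 ∨ n % 7 = 5 ∨ n % 7 = 6 →
      Cong (cyclotomic n ℚ ^ 2)
        (∑ k ∈ range n, (∏ i : Fin 3, poch (q ^ 2 ^ (i : ℕ)) (q ^ 7) k) /
          (poch (q ^ 7) (q ^ 7) k) ^ 3 * q ^ (7 * k)) 0 := by
  refine ⟨fun d m n l a r hn hcop ha har hr hA => main m n l a r hn hcop ha har hr hA, ?_, ?_⟩
  · intro d m n l a ha hs hl hn hmn
    have hcop : Nat.Coprime n m := by
      rw [Nat.coprime_iff_gcd_eq_one]
      have h1 : n.gcd m ∣ 1 := by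
        have h2 : n.gcd m ∣ n + 1 := (Nat.gcd_dvd_right n m).trans hmn
        exact (Nat.dvd_add_right (Nat.gcd_dvd_left n m)).1 h2
      exact Nat.dvd_one.1 h1
    refine main m n l a a hn hcop ha (fun i => ?_) hs ?_
    · have : a i + a i * n = a i * (n + 1) := by ring
      rw [this]; exact Dvd.dvd.mul_left hmn _
    · have hm : 0 < m := by
        rw [← hs]
        exact lt_of_lt_of_le (ha ⟨0, by omega⟩) (single_le_sum (f := a) (fun _ _ => Nat.zero_le _)
          (mem_univ _))
      rw [hs]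
      have : m + l * m = (l + 1) * m := by ring
      rw [this]
      exact Nat.mul_lt_mul_of_pos_right (by omega) hm
  · intro n hn
    have hcop : Nat.Coprime n 7 := by
      rw [Nat.coprime_comm, Nat.Prime.coprime_iff_not_dvd (by norm_num)]
      omega
    have hn1 : 1 < n := by omega
    have ha : ∀ i : Fin 3, 0 < 2 ^ (i : ℕ) := fun i => by positivity
    have hA : ∑ i : Fin 3, 2 ^ (i : ℕ) + 0 * 7 < (3 - 1) * 7 := by decide
    obtain ⟨r, hr7, hr⟩ : ∃ r : Fin 3 → ℕ, ∑ i, r i = 7 ∧
        ∀ i : Fin 3, 7 ∣ 2 ^ (i : ℕ) + r i * n := by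
      rcases hn with h | h | h
      · refine ⟨![2, 4, 1], by decide, ?_⟩
        intro i
        fin_cases i <;> simp <;> omega
      · refine ⟨![4, 1, 2], by decide, ?_⟩
        intro i
        fin_cases i <;> simp <;> omega
      · refine ⟨![1, 2, 4], by decide, ?_⟩
        intro i
        fin_cases i <;> simp <;> omega
    have := main 7 n 0 (fun i : Fin 3 => 2 ^ (i : ℕ)) r hn1 hcop ha hr hr7 hA
    simpa using this

end Pool.Agent.Results.MP_4d1f21_nt.ArbitraryParameters
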